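import Pool.Agent.Hhelper14.ZPL.Main

/-!
# Rational Hecke relations, by iterating `T₂`
-/

namespace Pool.Agent.Hhelper14.ZPL

open UpperHalfPlane ModularForm ModularFormClass SlashInvariantFormClass MatrixGroups
  EisensteinSeries Function Metric Pool.Agent.Hhelper14.ZP
open scoped ArithmeticFunction.sigma Manifold

/-- the ring of integers inside `ℂ` -/
def ZZ : Subring ℂ := (Int.castRingHom ℂ).range

theorem intCast_mem_ZZ (m : ℤ) : (m : ℂ) ∈ ZZ := ⟨m, rfl⟩

theorem natCast_mem_ZZ (m : ℕ) : (m : ℂ) ∈ ZZ := by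
  exact_mod_cast intCast_mem_ZZ m

theorem zgood_serA : Good ZZ serA := ⟨fun n => (σ 3 n : ℂ), fun _ => natCast_mem_ZZ _,
  fun _ hz => hasSum_serA hz⟩

theorem zgood_serB : Good ZZ serB := ⟨fun n => (σ 5 n : ℂ), fun _ => natCast_mem_ZZ _,
  fun _ hz => hasSum_serB hz⟩

theorem zgood_mix : Good ZZ (fun z => (5 * serA z + 7 * serB z) / 12) := by
  refine ⟨fun n => (5 * (σ 3 n : ℂ) + 7 * (σ 5 n : ℂ)) / 12, fun n => ?_, fun z hz => ?_⟩
  · obtain ⟨m, hm⟩ := twelve_dvd n
    have : (5 * (σ 3 n : ℂ) + 7 * (σ 5 n : ℂ)) / 12 = (m : ℂ) := by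
      have h2 : (5 * (σ 3 n : ℂ) + 7 * (σ 5 n : ℂ)) = 12 * m := by exact_mod_cast hm
      rw [h2]
      field_simp
    dsimp only
    rw [this]
    exact intCast_mem_ZZ m
  · have h1 := (((hasSum_serA hz).mul_left 5).add ((hasSum_serB hz).mul_left 7)).div_const 12
    refine hasSum_of_eq h1 fun n => ?_
    ring

theorem zgood_serDelta : Good ZZ serDelta := by
  have h100 : (100 : ℂ) ∈ ZZ := by exact_mod_cast natCast_mem_ZZ 100
  have h8000 : (8000 : ℂ) ∈ ZZ := by exact_mod_cast natCast_mem_ZZ 8000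
  have h147 : (147 : ℂ) ∈ ZZ := by exact_mod_cast natCast_mem_ZZ 147
  exact ((zgood_mix.add ((zgood_serA.pow 2).const_mul h100)).add
    ((zgood_serA.pow 3).const_mul h8000)).sub ((zgood_serB.pow 2).const_mul h147)

/-- **The q-expansion of `j` is integral**: `j = J(q)/q` with `J` given by a power series with
integer coefficients and `J(0) = 1`. -/
theorem zexists_J : ∃ J : ℂ → ℂ, Good ZZ J ∧ J 0 = 1 ∧
    ∀ τ : ℍ, jInv τ * Periodic.qParam 1 τ = J (Periodic.qParam 1 τ) := by
  obtain ⟨D, hD, hDz⟩ := zgood_serDelta.div_id (by simp [serDelta, serA_zero, serB_zero])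
  have hDτ : ∀ τ : ℍ, discriminant τ = Periodic.qParam 1 τ * D (Periodic.qParam 1 τ) :=
    fun τ => by rw [disc_eq, hDz _ (norm_qParam_lt τ)]
  have hq : ∀ τ : ℍ, Periodic.qParam 1 (τ : ℂ) ≠ 0 := fun τ => Periodic.qParam_ne_zero _
  have hD0 : D 0 = 1 := by
    have h1 : Filter.Tendsto (fun τ : ℍ => D (Periodic.qParam 1 τ)) atImInfty (nhds (D 0)) :=
      hD.continuousAt_zero.tendsto.comp (qParam_tendsto_atImInfty one_pos)
    refine tendsto_nhds_unique h1 (tendsto_atImInfty_tprod_one_sub_eta_q_pow.congr fun τ => ?_)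
    have h2 := hDτ τ
    rw [discriminant_eq_q_prod] at h2
    exact mul_left_cancel₀ (hq τ) h2
  have hDne : ∀ z : ℂ, ‖z‖ < 1 → D z ≠ 0 := by
    intro z hz
    rcases eq_or_ne z 0 with rfl | hz0
    · rw [hD0]; exact one_ne_zero
    · obtain ⟨τ, hτ⟩ := exists_qParam hz hz0
      intro h
      apply discriminant_ne_zero τ
      rw [hDτ, hτ, h, mul_zero]
  have h240 : (240 : ℂ) ∈ ZZ := by exact_mod_cast natCast_mem_ZZ 240
  have hE : Good ZZ (fun z => 1 + 240 * serA z) := (Good.const ZZ.one_mem).add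
    (zgood_serA.const_mul h240)
  refine ⟨fun z => (1 + 240 * serA z) ^ 3 * (D z)⁻¹, (hE.pow 3).mul (hD.inv hD0 hDne), ?_, ?_⟩
  · simp [serA_zero, hD0]
  · intro τ
    rw [jInv, E4_eq, hDτ]
    have h1 := hq τ
    have h2 := hDne _ (norm_qParam_lt τ)
    field_simp

open Polynomial in
/-- **Integral q-expansion principle** over `ℤ`. -/
theorem zexists_poly {N : ℕ} (hN : 0 < N) : ∀ (K : ℕ) (f : ℍ → ℂ) (F : ℂ → ℂ), MDiff f →
    (∀ (γ : SL(2, ℤ)) (τ : ℍ), f (γ • τ) = f τ) → Good ZZ F →
    (∀ τ : ℍ, f τ * qN N τ ^ K = F (qN N τ)) →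
    ∃ P : Polynomial ℤ, N * P.natDegree ≤ K ∧ (F 0 ≠ 0 → N * P.natDegree = K) ∧
      ∀ τ : ℍ, f τ = P.eval₂ (Int.castRingHom ℂ) (jInv τ) := by
  obtain ⟨J, hJ, hJ0, hJτ⟩ := zexists_J
  intro K
  induction K with
  | zero =>
    intro f F hf hinv hF hfF
    have hfF' : ∀ τ, F (qN N τ) = f τ := fun τ => by rw [← hfF τ, pow_zero, mul_one]
    have hlim : Filter.Tendsto f atImInfty (nhds (F 0)) :=
      (hF.continuousAt_zero.tendsto.comp (qN_tendsto hN)).congr hfF'
    obtain ⟨c, hc⟩ := const_of_bounded hf hinv (hlim.isBigO_one ℝ)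
    have hc0 : c = F 0 := by
      refine tendsto_nhds_unique ?_ hlim
      exact (tendsto_const_nhds (x := c)).congr fun τ => (hc τ).symm
    obtain ⟨n, hn⟩ := hF.zero_mem
    refine ⟨C n, by simp, fun _ => by simp, fun τ => ?_⟩
    rw [hc, hc0, eval₂_C, hn]
  | succ K ih =>
    intro f F hf hinv hF hfF
    by_cases hu : F 0 = 0
    · obtain ⟨G, hG, hFG⟩ := hF.div_id hu
      obtain ⟨P, hP1, -, hP3⟩ := ih f G hf hinv hG fun τ => by
        have h1 := hfF τ
        rw [hFG _ (norm_qN_lt hN τ), pow_succ, ← mul_assoc, mul_comm (qN N τ)] at h1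
        exact mul_right_cancel₀ (qN_ne_zero N τ) h1
      exact ⟨P, by omega, fun h => absurd hu h, hP3⟩
    · -- `N ∣ K + 1`
      have hdvd : N ∣ K + 1 := by
        rw [← exp_pow_eq_one_iff hN]
        set ζ := Complex.exp (2 * Real.pi * Complex.I / N) with hζ
        have h1 : ∀ τ : ℍ, ζ ^ (K + 1) * F (qN N τ) = F (ζ * qN N τ) := by
          intro τ
          rw [← qN_T hN, ← hfF, ← hfF, qN_T hN, hinv, mul_pow]
          ring
        have h2 : Filter.Tendsto (fun τ : ℍ => ζ ^ (K + 1) * F (qN N τ)) atImInfty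
            (nhds (ζ ^ (K + 1) * F 0)) :=
          (hF.continuousAt_zero.tendsto.comp (qN_tendsto hN)).const_mul _
        have h3 : Filter.Tendsto (fun τ : ℍ => F (ζ * qN N τ)) atImInfty (nhds (F 0)) := by
          have h4 := (qN_tendsto hN).const_mul ζ
          rw [mul_zero] at h4
          exact hF.continuousAt_zero.tendsto.comp h4
        have h5 := tendsto_nhds_unique h2 (h3.congr fun τ => (h1 τ).symm)
        exact mul_right_cancel₀ hu (by rw [h5, one_mul])
      obtain ⟨m, hm⟩ := hdvd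
      have hm0 : 0 < m := by
        rcases Nat.eq_zero_or_pos m with rfl | h
        · omega
        · exact h
      obtain ⟨u, hu'⟩ := hF.zero_mem
      have hG : Good ZZ (fun z => F z - F 0 * J (z ^ N) ^ m) :=
        hF.sub (((hJ.comp_pow hN).pow m).const_mul hF.zero_mem)
      obtain ⟨G, hG1, hG2⟩ := hG.div_id (by simp [hJ0, hN.ne'])
      obtain ⟨P, hP1, -, hP3⟩ := ih (fun τ => f τ - F 0 * jInv τ ^ m) G
        (by
          have h1 : MDiff (fun τ => jInv τ ^ m) := by
            have := jInv_mdiff.pow m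
            exact this
          exact hf.sub (h1.const_smul (F 0)))
        (fun γ τ => by simp only [hinv, jInv_smul]) hG1 (fun τ => by
          have h1 := hG2 _ (norm_qN_lt hN τ)
          have h2 : (f τ - F 0 * jInv τ ^ m) * qN N τ ^ (K + 1) = qN N τ * G (qN N τ) := by
            rw [← h1, sub_mul, hfF, hm, qN_pow hN, ← hJτ, mul_pow, ← qN_pow hN, ← pow_mul]
            ring
          rw [pow_succ, ← mul_assoc, mul_comm (qN N τ)] at h2
          exact mul_right_cancel₀ (qN_ne_zero N τ) h2)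
      have hdeg : P.natDegree < m := by
        by_contra hcon
        push Not at hcon
        have : N * m ≤ N * P.natDegree := Nat.mul_le_mul_left N hcon
        omega
      have hune : u ≠ 0 := fun h => hu (by rw [← hu', h, map_zero])
      have hdeg2 : (C u * X ^ m : Polynomial ℤ).natDegree = m := natDegree_C_mul_X_pow m u hune
      have hdeg3 : (P + C u * X ^ m).natDegree = m := by
        rw [natDegree_add_eq_right_of_natDegree_lt (by rw [hdeg2]; exact hdeg), hdeg2]
      refine ⟨P + C u * X ^ m, ?_, fun _ => ?_, fun τ => ?_⟩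
      · rw [hdeg3, hm]
      · rw [hdeg3, hm]
      · rw [eval₂_add, ← hP3 τ, eval₂_mul, eval₂_C, eval₂_pow, eval₂_X, hu']
        ring

theorem zsgn_mem (b : ℤ) : Complex.exp (Real.pi * Complex.I * (b : ℂ)) ∈ ZZ := by
  rcases sq_eq_one_iff.mp (sgn_sq b) with h | h
  · rw [h]; exact ZZ.one_mem
  · rw [h]; exact ZZ.neg_mem ZZ.one_mem

/-- expansions at infinity of the members of `T₂` -/
theorem zjQ_expansion (q : QQ 2) : ∃ G : ℂ → ℂ, Good ZZ G ∧
    (∀ τ : ℍ, jQ two_pos q τ * qN 2 τ ^ 4 = G (qN 2 τ)) ∧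
    (q ≠ Quotient.mk'' B0 → G 0 = 0) ∧ (q = Quotient.mk'' B0 → G 0 ≠ 0) := by
  obtain ⟨J, hJ, hJ0, hJτ⟩ := zexists_J
  induction q using Quotient.inductionOn' with
  | h A =>
    obtain ⟨B, hB, γ, rfl⟩ := exists_rep two_pos A
    have hcl : (Quotient.mk'' (γ • B) : QQ 2) = Quotient.mk'' B := Quotient.sound' ⟨γ, rfl⟩
    rw [hcl, jQ_mk]
    rcases rep_entries hB with h | rfl
    · refine ⟨fun z => Complex.exp (Real.pi * Complex.I * (B.1 0 1 : ℂ)) *
        J (Complex.exp (Real.pi * Complex.I * (B.1 0 1 : ℂ)) * z) * z ^ 3, ?_, fun τ => ?_, ?_, ?_⟩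
      · have h1 : Good ZZ (fun z => J (Complex.exp (Real.pi * Complex.I * (B.1 0 1 : ℂ)) * z)) :=
          hJ.comp_mul (zsgn_mem _) (sgn_norm _).le
        exact (h1.const_mul (zsgn_mem _)).mul (Good.id.pow 3)
      · set c := Complex.exp (Real.pi * Complex.I * (B.1 0 1 : ℂ)) with hc
        have hc2 : c ^ 2 = 1 := sgn_sq _
        have h1 := hJτ (act two_pos B τ)
        rw [act_of_one hB h] at h1
        have h2 : Function.Periodic.qParam 1 (((τ : ℂ) + (B.1 0 1 : ℂ)) / 2) = c * qN 2 τ := by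
          simp only [qN, Function.Periodic.qParam, hc]
          rw [← Complex.exp_add]
          congr 1
          push_cast
          ring
        rw [h2] at h1
        dsimp only
        rw [← h1, jA]
        linear_combination (- jInv (act two_pos B τ) * qN 2 τ ^ 4) * hc2
      · intro _
        simp
      · intro h2
        exact absurd h (rep_of_class h2)
    · refine ⟨fun z => J (z ^ 4), hJ.comp_pow (by norm_num), fun τ => ?_, fun h => absurd rfl h, ?_⟩
      · have h1 := hJτ (act two_pos B0 τ)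
        rw [B0_mem_reps_act] at h1
        have h2 : Function.Periodic.qParam 1 (2 * (τ : ℂ)) = qN 2 τ ^ 4 := by
          simp only [qN, Function.Periodic.qParam]
          rw [← Complex.exp_nat_mul]
          congr 1
          push_cast
          ring
        rw [h2] at h1
        exact h1
      · intro _
        simp [hJ0]

/-- power sums of the `2`-isogenous invariants -/
theorem hecke_pow (k : ℕ) : ∃ P : Polynomial ℤ, P.natDegree = 2 * k ∧
    ∀ τ : ℍ, ∑ q : QQ 2, jQ two_pos q τ ^ k = P.eval₂ (Int.castRingHom ℂ) (jInv τ) := by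
  classical
  choose G hG hGτ hG0 hG1 using zjQ_expansion
  have hmem : (fun τ : ℍ => ∑ q : QQ 2, jQ two_pos q τ ^ k) ∈ RR 2 := by
    have h1 : (∑ q : QQ 2, jQ two_pos q ^ k) ∈ RR 2 :=
      Subring.sum_mem _ fun q _ => Subring.pow_mem _ (jQ_mem two_pos q) k
    convert! h1 using 1
    funext τ
    simp
  have hgood : ∀ s : Finset (QQ 2), Good ZZ (fun z => ∑ q ∈ s, G q z ^ k) := by
    intro s
    induction s using Finset.induction_on with
    | empty => simpa using Good.const (O := ZZ) ZZ.zero_mem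
    | insert a s ha ih =>
      simp only [Finset.sum_insert ha]
      exact ((hG a).pow k).add ih
  have hF : ∀ τ : ℍ, (∑ q : QQ 2, jQ two_pos q τ ^ k) * qN 2 τ ^ (4 * k) =
      ∑ q : QQ 2, G q (qN 2 τ) ^ k := by
    intro τ
    rw [Finset.sum_mul]
    refine Finset.sum_congr rfl fun q _ => ?_
    rw [pow_mul, ← mul_pow, hGτ q τ]
  have hF0 : ∑ q : QQ 2, G q 0 ^ k ≠ 0 := by
    rcases Nat.eq_zero_or_pos k with rfl | hk
    · simp only [pow_zero, Finset.sum_const, nsmul_eq_mul, mul_one]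
      have : (Finset.univ : Finset (QQ 2)).card ≠ 0 := by
        rw [Finset.card_ne_zero]
        exact ⟨Quotient.mk'' B0, Finset.mem_univ _⟩
      exact_mod_cast this
    · rw [Finset.sum_eq_single (Quotient.mk'' B0 : QQ 2)]
      · exact pow_ne_zero k (hG1 _ rfl)
      · intro q _ hq
        rw [hG0 q hq, zero_pow hk.ne']
      · intro h
        exact absurd (Finset.mem_univ _) h
  have hinv : ∀ (γ : SL(2, ℤ)) (τ : ℍ), (∑ q : QQ 2, jQ two_pos q (γ • τ) ^ k) =
      ∑ q : QQ 2, jQ two_pos q τ ^ k := by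
    intro γ τ
    have h := Function.Bijective.sum_comp (rQ_bijective two_pos γ) (fun q => jQ two_pos q τ ^ k)
    rw [← h]
    refine Finset.sum_congr rfl fun q _ => ?_
    rw [jQ_rQ]
  obtain ⟨P, -, hP2, hP⟩ := zexists_poly (N := 2) two_pos (4 * k) _ _ hmem.1 hinv
    (hgood Finset.univ) hF
  have := hP2 hF0
  exact ⟨P, by omega, hP⟩

open Polynomial in
/-- iterating `T₂` -/
theorem hecke_iter (m : ℕ) : ∃ (Q : Type) (_ : Fintype Q) (M : Q → GL (Fin 2) ℚ)
    (P : Polynomial ℚ), (∀ q, 0 < (M q).det.val) ∧ P.natDegree = 2 ^ m ∧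
    ∀ τ : ℍ, ∑ q : Q, jInv (gact (M q) τ) = (P.map (algebraMap ℚ ℂ)).eval (jInv τ) := by
  induction m with
  | zero =>
    refine ⟨Unit, inferInstance, fun _ => 1, X, fun _ => by simp, by simp, fun τ => ?_⟩
    simp [gact_one]
  | succ m ih =>
    obtain ⟨Q, hQ, M, P, hM, hP, hPτ⟩ := ih
    choose R hR hRτ using exists_gl_jQ (N := 2) two_pos
    choose T hT hTτ using hecke_pow
    let P' : Polynomial ℚ := ∑ k ∈ Finset.range (P.natDegree + 1),
      C (P.coeff k) * (T k).map (Int.castRingHom ℚ)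
    refine ⟨QQ 2 × Q, inferInstance, fun rq => M rq.2 * R rq.1, P', fun rq => ?_, ?_, fun τ => ?_⟩
    · rw [map_mul, Units.val_mul]
      exact mul_pos (hM _) (hR _)
    · have hTd : ∀ k, ((T k).map (Int.castRingHom ℚ)).natDegree = 2 * k := fun k => by
        rw [natDegree_map_eq_of_injective (RingHom.injective_int (Int.castRingHom ℚ)), hT k]
      have hpos : 0 < P.natDegree := by rw [hP]; positivity
      have hlc : P.coeff P.natDegree ≠ 0 := by
        rw [coeff_natDegree, leadingCoeff_ne_zero]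
        intro h0
        rw [h0] at hpos
        simp at hpos
      have hlead : (C (P.coeff P.natDegree) * (T P.natDegree).map (Int.castRingHom ℚ)).natDegree =
          2 * P.natDegree := by
        rw [natDegree_C_mul hlc, hTd]
      have hrest : (∑ k ∈ Finset.range P.natDegree,
          C (P.coeff k) * (T k).map (Int.castRingHom ℚ)).natDegree ≤ 2 * (P.natDegree - 1) := by
        refine natDegree_sum_le_of_forall_le _ _ fun k hk => ?_
        refine (natDegree_C_mul_le _ _).trans ?_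
        rw [hTd]
        have := Finset.mem_range.mp hk
        omega
      have : P'.natDegree = 2 * P.natDegree := by
        change (∑ k ∈ Finset.range (P.natDegree + 1),
          C (P.coeff k) * (T k).map (Int.castRingHom ℚ)).natDegree = _
        rw [Finset.sum_range_succ, natDegree_add_eq_right_of_natDegree_lt, hlead]
        rw [hlead]
        omega
      rw [this, hP, pow_succ, mul_comm]
    · have h1 : ∀ r : QQ 2, ∑ q : Q, jInv (gact (M q * R r) τ) =
          ∑ k ∈ Finset.range (P.natDegree + 1), (algebraMap ℚ ℂ (P.coeff k)) * jQ two_pos r τ ^ k := by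
        intro r
        have h2 := hPτ (gact (R r) τ)
        rw [hRτ, eval_map, eval₂_eq_sum_range] at h2
        rw [← h2]
        refine Finset.sum_congr rfl fun q _ => ?_
        rw [gact_mul]
      rw [Fintype.sum_prod_type]
      simp only [h1]
      rw [Finset.sum_comm]
      change _ = ((∑ k ∈ Finset.range (P.natDegree + 1),
        C (P.coeff k) * (T k).map (Int.castRingHom ℚ)).map (algebraMap ℚ ℂ)).eval (jInv τ)
      rw [Polynomial.map_sum, eval_finsetSum]
      refine Finset.sum_congr rfl fun k _ => ?_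
      rw [← Finset.mul_sum, hTτ, Polynomial.map_mul, map_C, eval_mul, eval_C, map_map, eval_map]
      congr 2

/-- **Rational Hecke relation of large degree.** -/
theorem hecke_rat (d : ℕ) : ∃ (Q : Type) (_ : Fintype Q) (M : Option Q → GL (Fin 2) ℚ)
    (P : Polynomial ℚ), (∀ q, 0 < (M q).det.val) ∧ M none = 1 ∧ d ≤ P.natDegree ∧
    ∀ τ : ℍ, ∑ q : Q, jInv (gact (M (some q)) τ) = (P.map (algebraMap ℚ ℂ)).eval (jInv τ) := by
  obtain ⟨Q, hQ, M, P, hM, hP, hPτ⟩ := hecke_iter d
  refine ⟨Q, hQ, fun q => q.elim 1 M, P, fun q => ?_, rfl, ?_, hPτ⟩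
  · rcases q with _ | q
    · simp
    · exact hM q
  · rw [hP]
    exact Nat.lt_two_pow_self.le

end Pool.Agent.Hhelper14.ZPL
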