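import Pool.Agent.Hhelper14.ZPL.Main

/-!
# Isogenous points: an affine relation between `j (g τ)` and `j (h τ)` is the diagonal
-/

namespace Pool.Agent.Hhelper14.ZPL

open UpperHalfPlane MvPolynomial Pool.Agent.Hhelper14.ZP MatrixGroups Function
open scoped Manifold

variable {N : ℕ}

/-- the first column of `A` is divisible by the square root of the determinant -/
theorem growth_col (hN : 0 < N) (A : DD N) {α β : ℂ} (h : ∀ τ, jA hN A τ = α * jInv τ + β) :
    ∃ a : ℕ, a ^ 2 = N ∧ (a : ℤ) ∣ A.1 0 0 ∧ (a : ℤ) ∣ A.1 1 0 := by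
  obtain ⟨J, hJ, hJ0, hJτ⟩ := exists_J
  obtain ⟨B, hB, γ, rfl⟩ := exists_rep hN A
  obtain ⟨a, d, c, ha, hd, had, h00, h11, hc, hc1, hq⟩ := qParam_act' hN hB
  have hq1 : Filter.Tendsto (fun τ : ℍ => Function.Periodic.qParam 1 (τ : ℂ)) atImInfty (nhds 0) :=
    qParam_tendsto_atImInfty one_pos
  have hqN : Filter.Tendsto (fun τ : ℍ => qN N τ) atImInfty (nhds 0) := qN_tendsto hN
  have ha2 : a ^ 2 ≠ 0 := by positivity
  -- the left-hand side
  have hL : Filter.Tendsto (fun τ : ℍ => jA hN (γ • B) τ * (c * qN N τ ^ (a ^ 2))) atImInfty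
      (nhds 1) := by
    have h1 : Filter.Tendsto (fun τ : ℍ => c * qN N τ ^ (a ^ 2)) atImInfty (nhds 0) := by
      have := (hqN.pow (a ^ 2)).const_mul c
      rwa [zero_pow ha2, mul_zero] at this
    have h2 : Filter.Tendsto (fun τ : ℍ => J (c * qN N τ ^ (a ^ 2))) atImInfty (nhds (J 0)) :=
      hJ.continuousAt_zero.tendsto.comp h1
    rw [hJ0] at h2
    refine h2.congr fun τ => ?_
    rw [jA_smul, ← hq τ, jA, hJτ]
  -- the right-hand side
  have hR : Filter.Tendsto (fun τ : ℍ => (α * jInv τ + β) * qN N τ ^ N) atImInfty (nhds α) := by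
    have h2 : Filter.Tendsto (fun τ : ℍ => α * J (Function.Periodic.qParam 1 (τ : ℂ)) +
        β * Function.Periodic.qParam 1 (τ : ℂ)) atImInfty (nhds (α * J 0 + β * 0)) :=
      ((hJ.continuousAt_zero.tendsto.comp hq1).const_mul α).add (hq1.const_mul β)
    rw [hJ0, mul_one, mul_zero, add_zero] at h2
    refine h2.congr fun τ => ?_
    rw [qN_pow hN, ← hJτ]
    ring
  have hL' : Filter.Tendsto (fun τ : ℍ => (α * jInv τ + β) * (c * qN N τ ^ (a ^ 2))) atImInfty
      (nhds 1) := hL.congr fun τ => by rw [h τ]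
  have hα : α ≠ 0 := by
    rintro rfl
    have h1 : Filter.Tendsto (fun τ : ℍ => ((0 : ℂ) * jInv τ + β) * (c * qN N τ ^ (a ^ 2))) atImInfty
        (nhds (β * (c * 0 ^ (a ^ 2)))) := by
      refine (((hqN.pow (a ^ 2)).const_mul c).const_mul β).congr fun τ => ?_
      ring
    have h2 := tendsto_nhds_unique hL' h1
    rw [zero_pow ha2, mul_zero, mul_zero] at h2
    exact one_ne_zero h2
  have haN : a ^ 2 = N := by
    rcases lt_trichotomy (a ^ 2) N with hlt | heq | hgt
    · exfalso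
      have h1 : Filter.Tendsto (fun τ : ℍ => (α * jInv τ + β) * qN N τ ^ N) atImInfty
          (nhds (1 * (c⁻¹ * 0 ^ (N - a ^ 2)))) := by
        refine (hL'.mul ((hqN.pow (N - a ^ 2)).const_mul c⁻¹)).congr fun τ => ?_
        have e : qN N τ ^ N = qN N τ ^ (a ^ 2) * qN N τ ^ (N - a ^ 2) := by
          rw [← pow_add, Nat.add_sub_cancel' hlt.le]
        rw [e]
        have := hc.1
        field_simp
      have h2 := tendsto_nhds_unique hR h1
      rw [zero_pow (Nat.sub_pos_of_lt hlt).ne', mul_zero, mul_zero] at h2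
      exact hα h2
    · exact heq
    · exfalso
      have h1 : Filter.Tendsto (fun τ : ℍ => (α * jInv τ + β) * (c * qN N τ ^ (a ^ 2))) atImInfty
          (nhds (α * (c * 0 ^ (a ^ 2 - N)))) := by
        refine (hR.mul ((hqN.pow (a ^ 2 - N)).const_mul c)).congr fun τ => ?_
        have e : qN N τ ^ (a ^ 2) = qN N τ ^ N * qN N τ ^ (a ^ 2 - N) := by
          rw [← pow_add, Nat.add_sub_cancel' hgt.le]
        rw [e]
        ring
      have h2 := tendsto_nhds_unique hL' h1
      rw [zero_pow (Nat.sub_pos_of_lt hgt).ne', mul_zero, mul_zero] at h2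
      exact one_ne_zero h2
  obtain ⟨h10, -, -, -⟩ := hB
  refine ⟨a, haN, ?_, ?_⟩
  · rw [FixedDetMatrices.smul_coe, Matrix.mul_apply, Fin.sum_univ_two, h10, h00, mul_zero, add_zero]
    exact dvd_mul_left _ _
  · rw [FixedDetMatrices.smul_coe, Matrix.mul_apply, Fin.sum_univ_two, h10, h00, mul_zero, add_zero]
    exact dvd_mul_left _ _

/-- **Growth lemma**: if `j (A τ)` is an affine function of `j τ` then it is `j τ`. -/
theorem growth (hN : 0 < N) (A : DD N) {α β : ℂ} (h : ∀ τ, jA hN A τ = α * jInv τ + β) :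
    α = 1 ∧ β = 0 := by
  obtain ⟨a, haN, h1, h2⟩ := growth_col hN A h
  obtain ⟨a', haN', h3, h4⟩ := growth_col hN (rmul A ModularGroup.S) (α := α) (β := β) (fun τ => by
    rw [jA_rmul, h, jInv_smul])
  have haa : a' = a := by
    have : a' ^ 2 = a ^ 2 := by rw [haN, haN']
    exact Nat.pow_left_injective (n := 2) (by norm_num) this
  subst haa
  have e3 : (rmul A ModularGroup.S).1 0 0 = A.1 0 1 := by
    rw [rmul_val, Matrix.mul_apply, Fin.sum_univ_two]
    simp [ModularGroup.S]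
  have e4 : (rmul A ModularGroup.S).1 1 0 = A.1 1 1 := by
    rw [rmul_val, Matrix.mul_apply, Fin.sum_univ_two]
    simp [ModularGroup.S]
  rw [e3] at h3
  rw [e4] at h4
  obtain ⟨x, hx⟩ := h1
  obtain ⟨y, hy⟩ := h3
  obtain ⟨z, hz⟩ := h2
  obtain ⟨w, hw⟩ := h4
  have hN' : (0 : ℤ) < N := by exact_mod_cast hN
  have ha0 : (a' : ℤ) ≠ 0 := by
    intro h0
    have : (a' : ℤ) ^ 2 = N := by exact_mod_cast haN
    rw [h0] at this
    simp at this
    omega
  have hdet : x * w - y * z = 1 := by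
    have h5 := A.2
    rw [Matrix.det_fin_two, hx, hy, hz, hw] at h5
    have h6 : (a' : ℤ) ^ 2 = N := by exact_mod_cast haN
    have h7 : (a' : ℤ) ^ 2 * (x * w - y * z) = (a' : ℤ) ^ 2 * 1 := by
      linear_combination h5 - h6
    exact mul_left_cancel₀ (pow_ne_zero 2 ha0) h7
  let γ : SL(2, ℤ) := ⟨!![x, y; z, w], by rw [Matrix.det_fin_two_of]; linarith⟩
  have hact : ∀ τ : ℍ, act hN A τ = γ • τ := by
    intro τ
    apply UpperHalfPlane.ext
    rw [coe_act, hx, hy, hz, hw, UpperHalfPlane.coe_specialLinearGroup_apply]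
    have haC : (a' : ℂ) ≠ 0 := by exact_mod_cast ha0
    simp only [γ, algebraMap_int_eq, eq_intCast, Matrix.of_apply, Matrix.cons_val', Matrix.cons_val_zero,
      Matrix.cons_val_one, Matrix.cons_val_fin_one]
    push_cast
    rw [show ((a' : ℂ) * x * τ + a' * y) = a' * (x * τ + y) by ring,
      show ((a' : ℂ) * z * τ + a' * w) = a' * (z * τ + w) by ring, mul_div_mul_left _ _ haC]
  have hj : ∀ τ : ℍ, jInv τ = α * jInv τ + β := by
    intro τ
    rw [← h τ, jA, hact, jInv_smul]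
  obtain ⟨τ0, h0⟩ := j_surj 0
  obtain ⟨τ1, h1'⟩ := j_surj 1
  have e0 := hj τ0
  have e1 := hj τ1
  rw [h0, mul_zero, zero_add] at e0
  rw [h1', ← e0, mul_one, add_zero] at e1
  exact ⟨e1.symm, e0.symm⟩

theorem gact_mdiff {g : GL (Fin 2) ℚ} (hg : 0 < g.det.val) : MDiff (fun τ : ℍ => jInv (gact g τ)) := by
  obtain ⟨N, hN, A, hA⟩ := exists_integral hg
  have h1 : (fun τ : ℍ => jInv (gact g τ)) = jA hN A := by
    funext τ
    rw [hA, jA]
  rw [h1]
  exact jA_mdiff hN A

/-- a holomorphic function on the upper half plane with uncountably many zeros vanishes -/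
theorem zero_of_uncountable {f : ℍ → ℂ} (hf : MDiff f) (h : ¬ {τ : ℍ | f τ = 0}.Countable) :
    ∀ τ, f τ = 0 := by
  have hd := UpperHalfPlane.mdifferentiable_iff.mp hf
  have hU : IsOpen {z : ℂ | 0 < z.im} := isOpen_upperHalfPlaneSet
  have han : AnalyticOnNhd ℂ (f ∘ ofComplex) {z : ℂ | 0 < z.im} := hd.analyticOnNhd hU
  have hconn : IsPreconnected {z : ℂ | 0 < z.im} := (convex_halfSpace_im_gt 0).isPreconnected
  -- a point of accumulation
  have hacc : ∃ z ∈ {z : ℂ | 0 < z.im}, ∃ᶠ w in nhdsWithin z {z}ᶜ, (f ∘ ofComplex) w = 0 := by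
    by_contra hcon
    push Not at hcon
    apply h
    have hlin : IsLindelof {τ : ℍ | f τ = 0} := HereditarilyLindelofSpace.isLindelof _
    refine hlin.countable_of_isDiscrete ?_
    rw [isDiscrete_iff_nhdsNE]
    intro τ _
    rw [Filter.inf_principal_eq_bot]
    have h1 := hcon τ τ.im_pos
    have h2 : Filter.Tendsto (fun τ : ℍ => (τ : ℂ)) (nhdsWithin τ {τ}ᶜ)
        (nhdsWithin (τ : ℂ) {(τ : ℂ)}ᶜ) := by
      refine UpperHalfPlane.continuous_coe.continuousAt.continuousWithinAt.tendsto_nhdsWithin ?_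
      intro σ hσ h3
      exact hσ (UpperHalfPlane.ext h3)
    have h3 := h2.eventually h1
    filter_upwards [h3] with σ hσ
    simpa using hσ
  obtain ⟨z, hz, hfr⟩ := hacc
  have h1 := han.eqOn_zero_of_preconnected_of_frequently_eq_zero hconn hz hfr
  intro τ
  have h2 := h1 (show (τ : ℂ) ∈ {z : ℂ | 0 < z.im} from τ.im_pos)
  simpa using h2

/-- **Line lemma** -/
theorem line_lemma {g h : GL (Fin 2) ℚ} (hg : 0 < g.det.val) (hh : 0 < h.det.val) {α β : ℂ}
    {S : Set ℂ} (hS : ¬ S.Countable)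
    (H : ∀ s ∈ S, ∃ σ : ℍ, jInv (gact g σ) = s ∧ jInv (gact h σ) = α * s + β) :
    α = 1 ∧ β = 0 := by
  have hmd : MDiff (fun τ : ℍ => jInv (gact h τ) - α * jInv (gact g τ) - β) :=
    ((gact_mdiff hh).sub ((gact_mdiff hg).const_smul α)).sub mdifferentiable_const
  have hz : ¬ {τ : ℍ | jInv (gact h τ) - α * jInv (gact g τ) - β = 0}.Countable := by
    intro hc
    apply hS
    refine (hc.image fun τ => jInv (gact g τ)).mono ?_
    intro s hs
    obtain ⟨σ, h1, h2⟩ := H s hs
    refine ⟨σ, ?_, h1⟩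
    change jInv (gact h σ) - α * jInv (gact g σ) - β = 0
    rw [h1, h2]
    ring
  have h0 := zero_of_uncountable hmd hz
  have hk : 0 < (h * g⁻¹).det.val := by
    rw [map_mul, Units.val_mul]
    exact mul_pos hh (det_inv_pos hg)
  obtain ⟨N, hN, A, hA⟩ := exists_integral hk
  refine growth hN A (α := α) (β := β) fun τ => ?_
  have h1 := h0 (gact g⁻¹ τ)
  have h2 : gact g (gact g⁻¹ τ) = τ := by rw [← gact_mul, mul_inv_cancel, gact_one]
  have h3 : gact h (gact g⁻¹ τ) = act hN A τ := by rw [← gact_mul, hA]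
  simp only [h2, h3] at h1
  rw [jA]
  linear_combination h1

end Pool.Agent.Hhelper14.ZPL
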